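import Pool.Agent.H.MP_69260a_co.C

namespace Pool.Agent.Results.MP_69260a_co.No

/-- the distance matrix of a graph: entry `(u, v)` is the graph distance from `u` to `v` -/
noncomputable def distMatrix {V : Type} (G : SimpleGraph V) : Matrix V V ℝ :=
  Matrix.of fun u v : V => (G.dist u v : ℝ)

theorem result :
    ∃ (G : SimpleGraph (Fin 16 × Fin 64)) (H : SimpleGraph (Fin 32 × Fin 32)),
      G.Connected ∧ H.Connected ∧ (distMatrix G).charpoly = (distMatrix H).charpoly ∧
        G.IsBipartite ∧ ¬ H.IsBipartite :=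
  ⟨H.MP_69260a_co.GR, H.MP_69260a_co.GN, H.MP_69260a_co.conR, H.MP_69260a_co.conL,
    H.MP_69260a_co.cosp, H.MP_69260a_co.bipR, H.MP_69260a_co.nbL⟩

end Pool.Agent.Results.MP_69260a_co.No
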